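import Pool.Agent.Helper57.ZF.Goals

/-!
# MP_ef0af8_co, packet ZF GL: greedy leaves
-/

set_option autoImplicit false

namespace Pool.Agent.Helper55.ZF

open Pool.Agent.Helper57.ZF

theorem gl_aux (M : Type) [MetricSpace M] (rad : M → ℝ) (n : ℕ) : ∀ P : Finset M, P.card ≤ n →
    (∀ p ∈ P, 0 < rad p) → ∃ L ⊆ P, (∀ p ∈ L, ∀ q ∈ L, p ≠ q → 8 * rad p < dist p q) ∧
    ∀ p ∈ P, ∃ q ∈ L, rad q ≤ rad p ∧ dist p q ≤ 8 * rad p := by
  classical
  induction n with
  | zero =>
    intro P hP _
    have h : P = ∅ := by
      rw [← Finset.card_eq_zero]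
      omega
    subst h
    exact ⟨∅, Finset.Subset.refl _, by simp, by simp⟩
  | succ n ih =>
    intro P hP hr
    rcases P.eq_empty_or_nonempty with h | h
    · subst h
      exact ⟨∅, Finset.Subset.refl _, by simp, by simp⟩
    · obtain ⟨p0, hp0, hmin⟩ := P.exists_min_image rad h
      set P' := P.filter (fun p => 8 * rad p < dist p p0) with hP'
      have hsub : P' ⊆ P := Finset.filter_subset _ _
      have hnot : p0 ∉ P' := by
        rw [hP', Finset.mem_filter, dist_self]
        rintro ⟨_, h1⟩
        linarith [hr p0 hp0]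
      have hlt : P'.card < P.card := Finset.card_lt_card
        (Finset.ssubset_iff_subset_ne.2 ⟨hsub, fun e => hnot (e ▸ hp0)⟩)
      obtain ⟨L', hL1, hL2, hL3⟩ := ih P' (by omega) (fun p hp => hr p (hsub hp))
      refine ⟨insert p0 L', ?_, ?_, ?_⟩
      · intro p hp
        rcases Finset.mem_insert.1 hp with e | e
        · rw [e]; exact hp0
        · exact hsub (hL1 e)
      · intro p hp q hq hpq
        rcases Finset.mem_insert.1 hp with e | e
        · rcases Finset.mem_insert.1 hq with e' | e'
          · exact absurd (e.trans e'.symm) hpq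
          · have h1 := (Finset.mem_filter.1 (hL1 e')).2
            have h2 := hmin q (hsub (hL1 e'))
            rw [e, dist_comm]
            linarith
        · rcases Finset.mem_insert.1 hq with e' | e'
          · have h1 := (Finset.mem_filter.1 (hL1 e)).2
            rw [e']
            exact h1
          · exact hL2 p e q e' hpq
      · intro p hp
        by_cases hc : p ∈ P'
        · obtain ⟨q, hq, h1, h2⟩ := hL3 p hc
          exact ⟨q, Finset.mem_insert_of_mem hq, h1, h2⟩
        · refine ⟨p0, Finset.mem_insert_self _ _, hmin p hp, ?_⟩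
          by_contra h1
          push Not at h1
          exact hc (Finset.mem_filter.2 ⟨hp, h1⟩)

theorem zGL : G_GL := fun M _ P rad hr => gl_aux M rad P.card P le_rfl hr

end Pool.Agent.Helper55.ZF
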